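import Pool.Agent.N935.RK.AngA

/-!
# RK/ANG: the angle between the fixed spaces of `K i` and `K j` in a representation of `SU₃(5)`
-/

set_option autoImplicit false
set_option linter.unusedSectionVars false

namespace Pool.Agent.N935.RK

open Matrix Finset Pool.Agent.N993.RK

section count

variable {k : Type} [Field k] [Fintype k] [DecidableEq k] [CharP k 5] [Fintype (H0 k)]

/-- `g e_i` -/
def vec (g : H0 k) (i : Fin 3) : Fin 3 → k := mt g.1 *ᵥ (Pi.single i 1)

theorem vec_mul (g h : H0 k) (i : Fin 3) : vec (g * h) i = mt g.1 *ᵥ vec h i := by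
  unfold vec
  rw [Matrix.mulVec_mulVec]
  rfl

theorem B_vec (g : H0 k) (i : Fin 3) : B (vec g i) (vec g i) = 1 := by
  rw [vec, B_mul, B_single, Pi.single_eq_same]

theorem vec_ne (g : H0 k) (i : Fin 3) : vec g i ≠ 0 := by
  intro h
  have h1 := B_vec g i
  rw [h] at h1
  have h2 : B (0 : Fin 3 → k) 0 = 0 := by simp [B]
  rw [h2] at h1
  exact zero_ne_one h1

theorem B_smul_smul (c : k) (z : Fin 3 → k) : B (c • z) (c • z) = c ^ 6 * B z z := by
  rw [B_smul_left, B_smul_right]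
  ring

theorem card_root (c : k) : (univ.filter fun t : k => t ^ 6 = c).card ≤ 6 := by
  have h1 : (univ.filter fun t : k => t ^ 6 = c) ⊆ (Polynomial.nthRoots 6 c).toFinset := by
    intro t ht
    rw [Multiset.mem_toFinset, Polynomial.mem_nthRoots (by norm_num)]
    exact (Finset.mem_filter.mp ht).2
  exact (Finset.card_le_card h1).trans
    ((Multiset.toFinset_card_le _).trans (Polynomial.card_nthRoots 6 c))

theorem inv_mul_mem {g h : H0 k} {i : Fin 3} (e : vec g i = vec h i) : g⁻¹ * h ∈ K k i := by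
  show mt (g.1⁻¹ * h.1) *ᵥ (Pi.single i 1) = Pi.single i 1
  have e' : mt g.1 *ᵥ (Pi.single i 1) = mt h.1 *ᵥ (Pi.single i 1) := e
  rw [mt_mul, ← Matrix.mulVec_mulVec, ← e', Matrix.mulVec_mulVec, mt_inv_mul, Matrix.one_mulVec]

theorem card_fib (i : Fin 3) [Fintype (K k i)] (z : Fin 3 → k) :
    (univ.filter fun g : H0 k => vec g i = z).card ≤ Fintype.card (K k i) := by
  classical
  rcases (univ.filter fun g : H0 k => vec g i = z).eq_empty_or_nonempty with h | ⟨g0, hg0⟩
  · rw [h, Finset.card_empty]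
    exact Nat.zero_le _
  · have h0 := (Finset.mem_filter.mp hg0).2
    have h1 : (univ.filter fun g : H0 k => vec g i = z) ⊆
        Finset.image (fun a : K k i => g0 * a.1) Finset.univ := by
      intro g hg
      have h2 := (Finset.mem_filter.mp hg).2
      rw [Finset.mem_image]
      exact ⟨⟨g0⁻¹ * g, inv_mul_mem (h0.trans h2.symm)⟩, mem_univ _, by
        show g0 * (g0⁻¹ * g) = g
        group⟩
    exact (Finset.card_le_card h1).trans Finset.card_image_le

theorem card_rel (i : Fin 3) [Fintype (K k i)] (g : H0 k)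
    [DecidablePred fun g' : H0 k => ∃ c : k, c • vec g i = vec g' i] :
    (univ.filter fun g' : H0 k => ∃ c : k, c • vec g i = vec g' i).card ≤
      6 * Fintype.card (K k i) := by
  classical
  have h1 : (univ.filter fun g' : H0 k => ∃ c : k, c • vec g i = vec g' i) ⊆
      (univ.filter fun t : k => t ^ 6 = 1).biUnion
        fun c => univ.filter fun g' : H0 k => vec g' i = c • vec g i := by
    intro g' hg'
    obtain ⟨c, hc⟩ := (Finset.mem_filter.mp hg').2
    refine Finset.mem_biUnion.mpr ⟨c, Finset.mem_filter.mpr ⟨mem_univ _, ?_⟩,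
      Finset.mem_filter.mpr ⟨mem_univ _, hc.symm⟩⟩
    have h2 := B_vec g' i
    rw [← hc, B_smul_smul, B_vec, mul_one] at h2
    exact h2
  exact (Finset.card_le_card h1).trans ((Finset.card_biUnion_le_card_mul _ _ _
    (fun c _ => card_fib i _)).trans (Nat.mul_le_mul_right _ (card_root 1)))

theorem card_pairs (j : Fin 3) [Fintype (K k j)] (y : Fin 3 → k) :
    (((univ : Finset (k × H0 k)).filter fun p => p.1 ≠ 0).filter
      fun p => p.1 • vec p.2 j = y).card ≤ 6 * Fintype.card (K k j) := by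
  classical
  have h1 : (((univ : Finset (k × H0 k)).filter fun p => p.1 ≠ 0).filter
      fun p => p.1 • vec p.2 j = y) ⊆
      (univ.filter fun t : k => t ^ 6 = B y y).biUnion
        fun c => (univ.filter fun g' : H0 k => vec g' j = c⁻¹ • y).image (fun g' => (c, g')) := by
    rintro ⟨c, h⟩ hp
    rw [Finset.mem_filter, Finset.mem_filter] at hp
    obtain ⟨⟨-, hc0⟩, hc⟩ := hp
    simp only at hc0 hc
    refine Finset.mem_biUnion.mpr ⟨c, Finset.mem_filter.mpr ⟨mem_univ _, ?_⟩,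
      Finset.mem_image.mpr ⟨h, Finset.mem_filter.mpr ⟨mem_univ _, ?_⟩, rfl⟩⟩
    · rw [← hc, B_smul_smul, B_vec, mul_one]
    · rw [← hc, smul_smul, inv_mul_cancel₀ hc0, one_smul]
  exact (Finset.card_le_card h1).trans ((Finset.card_biUnion_le_card_mul _ _ _
    (fun c _ => Finset.card_image_le.trans (card_fib j _))).trans
      (Nat.mul_le_mul_right _ (card_root _)))

theorem card_K_le (hk : Fintype.card k = 25) {i j : Fin 3} (hij : i ≠ j) [Fintype (K k i)]
    [Fintype (K k j)] : Fintype.card (K k j) ≤ Fintype.card (K k i) := by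
  obtain ⟨l, hli, hlj⟩ : ∃ l : Fin 3, i ≠ l ∧ j ≠ l := by
    fin_cases i <;> fin_cases j <;> first | exact absurd rfl hij | decide
  obtain ⟨a, -, ha⟩ := exists_K (k := k) hk hli (Pi.single j 1)
    (by rw [B_single, Pi.single_eq_same]) (by rw [Pi.single_eq_of_ne hlj.symm])
  have hmem : ∀ g : K k j, a⁻¹ * (g : H0 k) * a ∈ K k i := by
    intro g
    have hg : mt (g : H0 k).1 *ᵥ (Pi.single j 1) = Pi.single j 1 := g.2
    show mt (a.1⁻¹ * (g : H0 k).1 * a.1) *ᵥ (Pi.single i 1) = Pi.single i 1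
    rw [mt_mul, mt_mul, ← Matrix.mulVec_mulVec, ha, ← Matrix.mulVec_mulVec, hg, ← ha,
      Matrix.mulVec_mulVec, mt_inv_mul, Matrix.one_mulVec]
  refine Fintype.card_le_of_injective (fun g : K k j => (⟨_, hmem g⟩ : K k i)) ?_
  intro g g' h
  have h1 : a⁻¹ * (g : H0 k) * a = a⁻¹ * (g' : H0 k) * a := congrArg Subtype.val h
  exact Subtype.ext (mul_left_cancel (mul_right_cancel h1))

end count

section moment

theorem second_moment {G Y V : Type} [Fintype G] [Fintype Y] [NormedAddCommGroup V]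
    [InnerProductSpace ℂ V] (R : G → Y → Prop) [∀ g y, Decidable (R g y)] (v : G → V) :
    ((∑ y, ‖∑ g, if R g y then v g else 0‖ ^ 2 : ℝ) : ℂ) =
      ∑ g, ∑ g', ((univ.filter fun y => R g y ∧ R g' y).card : ℂ) * inner ℂ (v g) (v g') := by
  have h1 : ∀ y, ((‖∑ g, if R g y then v g else 0‖ ^ 2 : ℝ) : ℂ) =
      ∑ g, ∑ g', if R g y ∧ R g' y then inner ℂ (v g) (v g') else 0 := by
    intro y
    have h2 := inner_self_eq_norm_sq_to_K (𝕜 := ℂ) (∑ g, if R g y then v g else 0)
    rw [Complex.ofReal_pow]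
    refine h2.symm.trans ?_
    rw [sum_inner]
    refine Finset.sum_congr rfl fun g _ => ?_
    rw [inner_sum]
    refine Finset.sum_congr rfl fun g' _ => ?_
    by_cases hg : R g y <;> by_cases hg' : R g' y <;> simp [hg, hg']
  rw [Complex.ofReal_sum, Finset.sum_congr rfl fun y _ => h1 y, Finset.sum_comm]
  refine Finset.sum_congr rfl fun g _ => ?_
  rw [Finset.sum_comm]
  refine Finset.sum_congr rfl fun g' _ => ?_
  rw [← Finset.sum_filter, Finset.sum_const, nsmul_eq_mul]

end moment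

section rep

variable {k : Type} [Field k] [Fintype k] [DecidableEq k] [CharP k 5] [Fintype (H0 k)]
  {V : Type} [NormedAddCommGroup V] [InnerProductSpace ℂ V] [CompleteSpace V]
  (π : H0 k →* unitary (V →L[ℂ] V))

/-- the action -/
noncomputable def pv (g : H0 k) (v : V) : V := (π g : V →L[ℂ] V) v

theorem pv_mul (g h : H0 k) (v : V) : pv π (g * h) v = pv π g (pv π h v) := by
  unfold pv
  rw [map_mul]
  rfl

theorem pv_norm (g : H0 k) (v : V) : ‖pv π g v‖ = ‖v‖ :=
  ContinuousLinearMap.norm_map_of_mem_unitary (π g).2 v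

/-- the sum over the vectors orthogonal to `y` -/
noncomputable def S (i : Fin 3) (x : V) (y : Fin 3 → k) : V :=
  ∑ g : H0 k, if B (vec g i) y = 0 then pv π g x else 0

theorem S_smul (i : Fin 3) (x : V) (y : Fin 3 → k) {c : k} (hc : c ≠ 0) :
    S π i x (c • y) = S π i x y := by
  unfold S
  refine Finset.sum_congr rfl fun g _ => ?_
  have h1 : B (vec g i) (c • y) = 0 ↔ B (vec g i) y = 0 := by
    rw [B_smul_right, mul_eq_zero]
    exact ⟨fun h => h.resolve_left (pow_ne_zero 5 hc), Or.inr⟩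
  simp only [h1]

theorem S_act (i : Fin 3) (x : V) (h : H0 k) (y : Fin 3 → k) :
    S π i x (mt h.1 *ᵥ y) = pv π h (S π i x y) := by
  unfold S
  rw [← Equiv.sum_comp (Equiv.mulLeft h)]
  have h0 : pv π h (∑ g : H0 k, if B (vec g i) y = 0 then pv π g x else 0) =
      ∑ g : H0 k, pv π h (if B (vec g i) y = 0 then pv π g x else 0) := map_sum _ _ _
  rw [h0]
  refine Finset.sum_congr rfl fun g _ => ?_
  rw [Equiv.coe_mulLeft, vec_mul, B_mul]
  split_ifs
  · exact pv_mul π h g x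
  · exact (map_zero (π h : V →L[ℂ] V)).symm

theorem S_ej (hk : Fintype.card k = 25) {i j : Fin 3} (hij : i ≠ j) [Fintype (K k i)]
    [Fintype (K k j)] (x : V) (hx : ∀ g ∈ K k i, pv π g x = x) :
    S π i x (Pi.single j 1) = (Fintype.card (K k i) : ℕ) • ∑ g : K k j, pv π g.1 x := by
  classical
  have h1 : (Fintype.card (K k i) : ℕ) • ∑ g : K k j, pv π g.1 x =
      ∑ p : K k j × K k i, pv π (p.1.1 * p.2.1) x := by
    rw [Fintype.sum_prod_type, Finset.smul_sum]
    refine Finset.sum_congr rfl fun a _ => ?_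
    rw [← Finset.card_univ, ← Finset.sum_const]
    refine Finset.sum_congr rfl fun b _ => ?_
    rw [pv_mul, hx b.1 b.2]
  rw [h1]
  unfold S
  rw [← Finset.sum_filter]
  symm
  refine Finset.sum_bij (fun (p : K k j × K k i) _ => p.1.1 * p.2.1) ?_ ?_ ?_ ?_
  · rintro ⟨a, b⟩ -
    rw [Finset.mem_filter]
    refine ⟨mem_univ _, ?_⟩
    have hb : vec b.1 i = Pi.single i 1 := b.2
    have ha : mt a.1.1 *ᵥ (Pi.single j 1) = Pi.single j 1 := a.2
    have h2 := B_mul a.1 (Pi.single i 1) (Pi.single j 1)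
    rw [ha, B_single (Pi.single i 1), Pi.single_eq_of_ne hij.symm] at h2
    rw [vec_mul, hb]
    exact h2
  · rintro ⟨a, b⟩ - ⟨a', b'⟩ - h
    simp only at h
    have h3 : a'.1⁻¹ * a.1 = b'.1 * b.1⁻¹ := by
      rw [eq_mul_inv_iff_mul_eq, mul_assoc, h, inv_mul_cancel_left]
    have h4 : a'.1⁻¹ * a.1 = 1 := by
      refine K_inter hij _ ?_ ((K k j).mul_mem ((K k j).inv_mem a'.2) a.2)
      rw [h3]
      exact (K k i).mul_mem b'.2 ((K k i).inv_mem b.2)
    have h5 : a' = a := Subtype.ext (inv_mul_eq_one.mp h4)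
    subst h5
    have h6 : b = b' := Subtype.ext (mul_left_cancel h)
    rw [h6]
  · intro g hg
    have hg' := (Finset.mem_filter.mp hg).2
    rw [B_single] at hg'
    obtain ⟨a, ha, hae⟩ := exists_K (k := k) hk hij (vec g i) (B_vec g i) hg'
    exact ⟨(⟨a, ha⟩, ⟨a⁻¹ * g, inv_mul_mem hae⟩), mem_univ _, by
      show a * (a⁻¹ * g) = g
      group⟩
  · intro p _
    rfl

open Classical in
/-- the upper bound for the second moment -/
theorem moment_le (hk : Fintype.card k = 25) (i : Fin 3) [Fintype (K k i)] (x : V)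
    (hs : ∑ g : H0 k, pv π g x = 0) :
    ∑ y : Fin 3 → k, ‖S π i x y‖ ^ 2 ≤
      3600 * Fintype.card (K k i) * Fintype.card (H0 k) * ‖x‖ ^ 2 := by
  have h1 := second_moment (fun (g : H0 k) (y : Fin 3 → k) => B (vec g i) y = 0)
    (fun g => pv π g x)
  have h2 : ∀ g g' : H0 k, ((univ.filter fun y : Fin 3 → k => B (vec g i) y = 0 ∧
      B (vec g' i) y = 0).card : ℂ) * inner ℂ (pv π g x) (pv π g' x) =
      25 * inner ℂ (pv π g x) (pv π g' x) +
        if (∃ c : k, c • vec g i = vec g' i) then 600 * inner ℂ (pv π g x) (pv π g' x) else 0 := by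
    intro g g'
    rw [card_perp hk _ _ (vec_ne g i)]
    split_ifs
    · push_cast
      ring
    · push_cast
      ring
  rw [Finset.sum_congr rfl fun g _ => Finset.sum_congr rfl fun g' _ => h2 g g'] at h1
  have h3 : ∑ g : H0 k, ∑ g' : H0 k, (25 * inner ℂ (pv π g x) (pv π g' x) +
      if (∃ c : k, c • vec g i = vec g' i) then 600 * inner ℂ (pv π g x) (pv π g' x) else 0) =
      ∑ g : H0 k, ∑ g' : H0 k,
      (if (∃ c : k, c • vec g i = vec g' i) then 600 * inner ℂ (pv π g x) (pv π g' x) else 0 : ℂ)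
      := by
    have h4 : ∑ g : H0 k, ∑ g' : H0 k, (25 * inner ℂ (pv π g x) (pv π g' x) : ℂ) = 0 := by
      have h5 : ∑ g : H0 k, ∑ g' : H0 k, (25 * inner ℂ (pv π g x) (pv π g' x) : ℂ) =
          25 * inner ℂ (∑ g : H0 k, pv π g x) (∑ g' : H0 k, pv π g' x) := by
        rw [sum_inner, Finset.mul_sum]
        refine Finset.sum_congr rfl fun g _ => ?_
        rw [inner_sum, Finset.mul_sum]
      rw [h5, hs, inner_zero_left, mul_zero]
    simp_rw [Finset.sum_add_distrib]
    rw [h4, zero_add]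
  rw [h3] at h1
  have h6 : ‖((∑ y : Fin 3 → k, ‖S π i x y‖ ^ 2 : ℝ) : ℂ)‖ ≤
      3600 * Fintype.card (K k i) * Fintype.card (H0 k) * ‖x‖ ^ 2 := by
    unfold S
    rw [h1]
    refine (norm_sum_le _ _).trans ?_
    have h7 : ∀ g ∈ (univ : Finset (H0 k)), ‖∑ g' : H0 k,
        (if (∃ c : k, c • vec g i = vec g' i) then 600 * inner ℂ (pv π g x) (pv π g' x)
          else 0 : ℂ)‖ ≤ 3600 * Fintype.card (K k i) * ‖x‖ ^ 2 := by
      intro g _
      refine (norm_sum_le _ _).trans ?_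
      have h8 : ∀ g' ∈ (univ : Finset (H0 k)),
          ‖(if (∃ c : k, c • vec g i = vec g' i) then 600 * inner ℂ (pv π g x) (pv π g' x)
          else 0 : ℂ)‖ ≤ if (∃ c : k, c • vec g i = vec g' i) then 600 * ‖x‖ ^ 2 else 0 := by
        intro g' _
        split_ifs
        · rw [norm_mul]
          have h9 := norm_inner_le_norm (𝕜 := ℂ) (pv π g x) (pv π g' x)
          rw [pv_norm, pv_norm] at h9
          have h10 : ‖(600 : ℂ)‖ = 600 := by simp
          rw [h10]
          nlinarith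
        · rw [norm_zero]
      refine (Finset.sum_le_sum h8).trans ?_
      rw [← Finset.sum_filter, Finset.sum_const, nsmul_eq_mul]
      have h11 : ((univ.filter fun g' : H0 k => ∃ c : k, c • vec g i = vec g' i).card : ℝ) ≤
          6 * Fintype.card (K k i) := by exact_mod_cast card_rel i g
      have h12 : (0 : ℝ) ≤ 600 * ‖x‖ ^ 2 := by positivity
      nlinarith [mul_le_mul_of_nonneg_right h11 h12]
    refine (Finset.sum_le_sum h7).trans ?_
    rw [Finset.sum_const, nsmul_eq_mul, Finset.card_univ]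
    apply le_of_eq
    ring
  rw [Complex.norm_real, Real.norm_eq_abs, abs_of_nonneg (by positivity)] at h6
  exact h6

open Classical in
/-- the lower bound for the second moment -/
theorem moment_ge (hk : Fintype.card k = 25) (i j : Fin 3) [Fintype (K k j)] (x : V) :
    24 * Fintype.card (H0 k) * ‖S π i x (Pi.single j (1 : k))‖ ^ 2 ≤
      6 * Fintype.card (K k j) * ∑ y : Fin 3 → k, ‖S π i x y‖ ^ 2 := by
  have h1 : ∑ p ∈ ((univ : Finset (k × H0 k)).filter fun p => p.1 ≠ 0),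
      ‖S π i x (p.1 • vec p.2 j)‖ ^ 2 =
      24 * Fintype.card (H0 k) * ‖S π i x (Pi.single j (1 : k))‖ ^ 2 := by
    have h2 : ∀ p ∈ ((univ : Finset (k × H0 k)).filter fun p => p.1 ≠ 0),
        ‖S π i x (p.1 • vec p.2 j)‖ ^ 2 = ‖S π i x (Pi.single j (1 : k))‖ ^ 2 := by
      intro p hp
      rw [S_smul π i x _ (Finset.mem_filter.mp hp).2, vec, S_act, pv_norm]
    rw [Finset.sum_congr rfl h2, Finset.sum_const, nsmul_eq_mul]
    congr 1
    have h3 : ((univ : Finset (k × H0 k)).filter fun p => p.1 ≠ 0) =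
        ((univ : Finset k).filter fun c => c ≠ 0) ×ˢ (univ : Finset (H0 k)) := by
      ext p
      simp
    have h4 : ((univ : Finset k).filter fun c => c ≠ 0).card = 24 := by
      rw [Finset.filter_ne', Finset.card_erase_of_mem (mem_univ _), Finset.card_univ, hk]
    rw [h3, Finset.card_product, h4, Finset.card_univ]
    push_cast
    ring
  rw [← h1, ← Finset.sum_fiberwise _ (fun p : k × H0 k => p.1 • vec p.2 j), Finset.mul_sum]
  refine Finset.sum_le_sum fun y _ => ?_
  have h5 : ∀ p ∈ (((univ : Finset (k × H0 k)).filter fun p => p.1 ≠ 0).filter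
      fun p => p.1 • vec p.2 j = y), ‖S π i x (p.1 • vec p.2 j)‖ ^ 2 = ‖S π i x y‖ ^ 2 := by
    intro p hp
    rw [(Finset.mem_filter.mp hp).2]
  rw [Finset.sum_congr rfl h5, Finset.sum_const, nsmul_eq_mul]
  refine mul_le_mul_of_nonneg_right ?_ (by positivity)
  exact_mod_cast card_pairs j y

end rep

/-- **ANG** -/
theorem t_ang : S_ANG := by
  classical
  intro k _ _ _ _ hk _ i j _ hij V _ _ _ π x hx hs
  let _ : Fintype (K k i) := Fintype.ofFinite _
  have hx' : ∀ g ∈ K k i, pv π g x = x := hx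
  have h1 := moment_le π hk i x hs
  have h2 := moment_ge π hk i j x
  have h3 : ‖S π i x (Pi.single j (1 : k))‖ =
      Fintype.card (K k i) * ‖∑ g : K k j, pv π g.1 x‖ := by
    rw [S_ej π hk hij x hx', ← Nat.cast_smul_eq_nsmul ℝ, norm_smul, Real.norm_natCast]
  have h4 : (Fintype.card (K k j) : ℝ) ≤ Fintype.card (K k i) := by
    exact_mod_cast card_K_le hk hij
  obtain ⟨T, hT⟩ : ∃ T : ℝ, T = ‖∑ g : K k j, pv π g.1 x‖ := ⟨_, rfl⟩
  obtain ⟨a, ha⟩ : ∃ a : ℝ, a = Fintype.card (K k i) := ⟨_, rfl⟩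
  obtain ⟨b, hb⟩ : ∃ b : ℝ, b = Fintype.card (K k j) := ⟨_, rfl⟩
  obtain ⟨n, hn⟩ : ∃ n : ℝ, n = Fintype.card (H0 k) := ⟨_, rfl⟩
  obtain ⟨M, hM⟩ : ∃ M : ℝ, M = ∑ y : Fin 3 → k, ‖S π i x y‖ ^ 2 := ⟨_, rfl⟩
  have ha0 : 0 < a := by rw [ha]; exact_mod_cast Fintype.card_pos
  have hn0 : 0 < n := by rw [hn]; exact_mod_cast Fintype.card_pos
  have hb0 : 0 ≤ b := by rw [hb]; positivity
  have hM0 : 0 ≤ M := by rw [hM]; positivity
  have hT0 : 0 ≤ T := by rw [hT]; exact norm_nonneg _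
  rw [h3, ← hT, ← ha, ← hb, ← hn, ← hM] at h2
  rw [← ha, ← hn, ← hM] at h1
  rw [← ha, ← hb] at h4
  show ‖∑ g : K k j, pv π g.1 x‖ ≤ 30 * ‖x‖
  rw [← hT]
  -- `24 n a² T² ≤ 6 b M ≤ 6 a (3600 a n |x|²)`
  have h5 : 6 * b * M ≤ 6 * a * (3600 * a * n * ‖x‖ ^ 2) :=
    mul_le_mul (by linarith) h1 hM0 (by positivity)
  have h6 : (24 * n * a ^ 2) * T ^ 2 ≤ (24 * n * a ^ 2) * (30 * ‖x‖) ^ 2 := by
    calc (24 * n * a ^ 2) * T ^ 2 = 24 * n * (a * T) ^ 2 := by ring
      _ ≤ 6 * b * M := h2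
      _ ≤ 6 * a * (3600 * a * n * ‖x‖ ^ 2) := h5
      _ = (24 * n * a ^ 2) * (30 * ‖x‖) ^ 2 := by ring
  have h7 := le_of_mul_le_mul_left h6 (by positivity)
  exact le_of_sq_le_sq h7 (by positivity)

end Pool.Agent.N935.RK
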