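import Pool.Agent.N993.RK.Stm

/-!
# RK/ANG, part A: the hermitian form over the field with 25 elements
-/

set_option autoImplicit false

namespace Pool.Agent.N935.RK

open Matrix Finset Pool.Agent.N993.RK

variable {k : Type} [Field k]

/-- the form -/
def B (z y : Fin 3 → k) : k := ∑ l, z l * y l ^ 5

theorem B_smul_left (c : k) (z y : Fin 3 → k) : B (c • z) y = c * B z y := by
  unfold B
  rw [Finset.mul_sum]
  exact Finset.sum_congr rfl fun l _ => by rw [Pi.smul_apply, smul_eq_mul, mul_assoc]

theorem B_smul_right (c : k) (z y : Fin 3 → k) : B z (c • y) = c ^ 5 * B z y := by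
  unfold B
  rw [Finset.mul_sum]
  exact Finset.sum_congr rfl fun l _ => by rw [Pi.smul_apply, smul_eq_mul, mul_pow]; ring

theorem B_single (z : Fin 3 → k) (j : Fin 3) : B z (Pi.single j 1) = z j := by
  unfold B
  rw [Finset.sum_eq_single j]
  · rw [Pi.single_eq_same, one_pow, mul_one]
  · intro l _ hl
    rw [Pi.single_eq_of_ne hl, zero_pow (by norm_num), mul_zero]
  · intro h
    exact absurd (mem_univ j) h

theorem B_frob [CharP k 5] (z y : Fin 3 → k) : B z y = z ⬝ᵥ (frobenius k 5 ∘ y) := rfl

theorem B_mul [CharP k 5] (g : H0 k) (z y : Fin 3 → k) :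
    B (mt g.1 *ᵥ z) (mt g.1 *ᵥ y) = B z y := by
  have hg : mt g.1 * ct 1 (mt g.1) = 1 := g.2
  have h1 : ct 1 (mt g.1) * mt g.1 = 1 := mul_eq_one_comm.1 hg
  have h2 : (mt g.1)ᵀ * (mt g.1).map (frobenius k 5) = 1 := by
    have h3 := congrArg Matrix.transpose h1
    rw [Matrix.transpose_mul, Matrix.transpose_one] at h3
    have h4 : (ct 1 (mt g.1))ᵀ = (mt g.1).map (frobenius k 5) := by
      unfold ct
      rw [Matrix.transpose_transpose]
      ext p q
      rw [Matrix.map_apply, Matrix.map_apply, iterateFrobenius_def, frobenius_def, pow_one]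
    rw [h4] at h3
    exact h3
  rw [B_frob, B_frob]
  have h5 : frobenius k 5 ∘ (mt g.1 *ᵥ y) =
      (mt g.1).map (frobenius k 5) *ᵥ (frobenius k 5 ∘ y) := by
    funext p
    exact RingHom.map_mulVec _ _ _ _
  rw [h5, ← Matrix.vecMul_transpose, ← Matrix.dotProduct_mulVec, Matrix.mulVec_mulVec, h2,
    Matrix.one_mulVec]

/-- the number of the solutions of a system of linear equations of full rank -/
theorem card_ker [Fintype k] [DecidableEq k] (hk : Fintype.card k = 25) {m : ℕ} (hm : m ≤ 3)
    (A : Matrix (Fin m) (Fin 3) k) (hA : LinearIndependent k A) :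
    (univ.filter fun w : Fin 3 → k => A *ᵥ w = 0).card = 25 ^ (3 - m) := by
  have h1 := LinearMap.finrank_range_add_finrank_ker A.mulVecLin
  have h2 : Module.finrank k (LinearMap.range A.mulVecLin) = m := by
    have h3 : A.rank = Fintype.card (Fin m) := hA.rank_matrix
    rw [Fintype.card_fin] at h3
    exact h3
  rw [h2, Module.finrank_fin_fun] at h1
  have h4 : Module.finrank k (LinearMap.ker A.mulVecLin) = 3 - m := by omega
  have h5 := Module.natCard_eq_pow_finrank (K := k) (V := LinearMap.ker A.mulVecLin)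
  rw [Nat.card_eq_fintype_card (α := k), hk, h4] at h5
  rw [← h5]
  symm
  refine Nat.subtype_card _ fun w => ?_
  rw [Finset.mem_filter, LinearMap.mem_ker, Matrix.mulVecLin_apply]
  exact ⟨fun h => h.2, fun h => ⟨mem_univ _, h⟩⟩

/-- the number of the vectors orthogonal to two given vectors -/
theorem card_perp [Fintype k] [DecidableEq k] [CharP k 5] (hk : Fintype.card k = 25)
    (z z' : Fin 3 → k) (hz : z ≠ 0) [Decidable (∃ c : k, c • z = z')] :
    (univ.filter fun y : Fin 3 → k => B z y = 0 ∧ B z' y = 0).card =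
      if ∃ c : k, c • z = z' then 625 else 25 := by
  classical
  have hinj : Function.Injective (fun y : Fin 3 → k => frobenius k 5 ∘ y) := by
    intro y y' h
    funext l
    exact frobenius_inj k 5 (congrFun h l)
  have hbij : Function.Bijective (fun y : Fin 3 → k => frobenius k 5 ∘ y) :=
    Finite.injective_iff_bijective.mp hinj
  split_ifs with h
  · obtain ⟨c, rfl⟩ := h
    have hA : LinearIndependent k (Matrix.of ![z]) := by
      rw [linearIndependent_unique_iff]
      exact hz
    rw [show (625 : ℕ) = 25 ^ (3 - 1) by norm_num, ← card_ker hk (by norm_num) _ hA]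
    refine Finset.card_bijective _ hbij fun y => ?_
    rw [Finset.mem_filter, Finset.mem_filter]
    constructor
    · rintro ⟨-, h1, -⟩
      refine ⟨mem_univ _, ?_⟩
      funext r
      fin_cases r
      exact h1
    · rintro ⟨-, h1⟩
      have h2 : B z y = 0 := congrFun h1 0
      exact ⟨mem_univ _, h2, by rw [B_smul_left, h2, mul_zero]⟩
  · have hA : LinearIndependent k (Matrix.of ![z, z']) := by
      have h1 := (LinearIndependent.pair_iff' (K := k) (x := z) (y := z') hz).mpr
        (fun a ha => h ⟨a, ha⟩)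
      exact h1
    rw [show (25 : ℕ) = 25 ^ (3 - 2) by norm_num, ← card_ker hk (by norm_num) _ hA]
    refine Finset.card_bijective _ hbij fun y => ?_
    rw [Finset.mem_filter, Finset.mem_filter]
    constructor
    · rintro ⟨-, h1, h2⟩
      refine ⟨mem_univ _, ?_⟩
      funext r
      fin_cases r
      · exact h1
      · exact h2
    · rintro ⟨-, h1⟩
      exact ⟨mem_univ _, congrFun h1 0, congrFun h1 1⟩

theorem mk_K [CharP k 5] {i j : Fin 3} {z : Fin 3 → k} (A : M3 k) (h1 : A.det = 1)
    (h2 : A * ct 1 A = 1) (h3 : A *ᵥ (Pi.single j 1) = Pi.single j 1)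
    (h4 : A *ᵥ (Pi.single i 1) = z) :
    ∃ a : H0 k, a ∈ K k j ∧ mt a.1 *ᵥ (Pi.single i 1) = z :=
  ⟨⟨⟨A, h1⟩, h2⟩, h3, h4⟩

/-- transitivity of `K j` on the unit vectors orthogonal to `e j` -/
theorem exists_K [Fintype k] [CharP k 5] (hk : Fintype.card k = 25) {i j : Fin 3} (hij : i ≠ j)
    (z : Fin 3 → k) (hz : B z z = 1) (hzj : z j = 0) :
    ∃ a : H0 k, a ∈ K k j ∧ mt a.1 *ᵥ (Pi.single i 1) = z := by
  have hf : ∀ t : k, t ^ 25 = t := by
    intro t
    rw [← hk]
    exact FiniteField.pow_card t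
  have hf5 : ∀ t : k, (t ^ 5) ^ 5 = t := by
    intro t
    rw [← pow_mul]
    exact hf t
  have hf5n : ∀ t : k, (-t ^ 5) ^ 5 = -t := by
    intro t
    rw [Odd.neg_pow (by decide), hf5]
  unfold B at hz
  rw [Fin.sum_univ_three] at hz
  fin_cases i <;> fin_cases j
  · exact absurd rfl hij
  · replace hzj : z 1 = 0 := hzj
    rw [hzj] at hz
    refine mk_K !![z 0, 0, -z 2 ^ 5; 0, 1, 0; z 2, 0, z 0 ^ 5] ?_ ?_ ?_ ?_
    · rw [Matrix.det_fin_three]
      simp
      linear_combination hz
    · ext p q
      fin_cases p <;> fin_cases q <;>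
        simp [Matrix.mul_apply, Fin.sum_univ_three, ct_apply, hf5, hf5n] <;>
        first | linear_combination hz | ring1
    · ext p
      fin_cases p <;> simp
    · ext p
      fin_cases p <;> simp [hzj]
  · replace hzj : z 2 = 0 := hzj
    rw [hzj] at hz
    refine mk_K !![z 0, -z 1 ^ 5, 0; z 1, z 0 ^ 5, 0; 0, 0, 1] ?_ ?_ ?_ ?_
    · rw [Matrix.det_fin_three]
      simp
      linear_combination hz
    · ext p q
      fin_cases p <;> fin_cases q <;>
        simp [Matrix.mul_apply, Fin.sum_univ_three, ct_apply, hf5, hf5n] <;>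
        first | linear_combination hz | ring1
    · ext p
      fin_cases p <;> simp
    · ext p
      fin_cases p <;> simp [hzj]
  · replace hzj : z 0 = 0 := hzj
    rw [hzj] at hz
    refine mk_K !![1, 0, 0; 0, z 1, -z 2 ^ 5; 0, z 2, z 1 ^ 5] ?_ ?_ ?_ ?_
    · rw [Matrix.det_fin_three]
      simp
      linear_combination hz
    · ext p q
      fin_cases p <;> fin_cases q <;>
        simp [Matrix.mul_apply, Fin.sum_univ_three, ct_apply, hf5, hf5n] <;>
        first | linear_combination hz | ring1
    · ext p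
      fin_cases p <;> simp
    · ext p
      fin_cases p <;> simp [hzj]
  · exact absurd rfl hij
  · replace hzj : z 2 = 0 := hzj
    rw [hzj] at hz
    refine mk_K !![z 1 ^ 5, z 0, 0; -z 0 ^ 5, z 1, 0; 0, 0, 1] ?_ ?_ ?_ ?_
    · rw [Matrix.det_fin_three]
      simp
      linear_combination hz
    · ext p q
      fin_cases p <;> fin_cases q <;>
        simp [Matrix.mul_apply, Fin.sum_univ_three, ct_apply, hf5, hf5n] <;>
        first | linear_combination hz | ring1
    · ext p
      fin_cases p <;> simp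
    · ext p
      fin_cases p <;> simp [hzj]
  · replace hzj : z 0 = 0 := hzj
    rw [hzj] at hz
    refine mk_K !![1, 0, 0; 0, z 2 ^ 5, z 1; 0, -z 1 ^ 5, z 2] ?_ ?_ ?_ ?_
    · rw [Matrix.det_fin_three]
      simp
      linear_combination hz
    · ext p q
      fin_cases p <;> fin_cases q <;>
        simp [Matrix.mul_apply, Fin.sum_univ_three, ct_apply, hf5, hf5n] <;>
        first | linear_combination hz | ring1
    · ext p
      fin_cases p <;> simp
    · ext p
      fin_cases p <;> simp [hzj]
  · replace hzj : z 1 = 0 := hzj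
    rw [hzj] at hz
    refine mk_K !![z 2 ^ 5, 0, z 0; 0, 1, 0; -z 0 ^ 5, 0, z 2] ?_ ?_ ?_ ?_
    · rw [Matrix.det_fin_three]
      simp
      linear_combination hz
    · ext p q
      fin_cases p <;> fin_cases q <;>
        simp [Matrix.mul_apply, Fin.sum_univ_three, ct_apply, hf5, hf5n] <;>
        first | linear_combination hz | ring1
    · ext p
      fin_cases p <;> simp
    · ext p
      fin_cases p <;> simp [hzj]
  · exact absurd rfl hij

theorem mt_apply [CharP k 5] (g : H0 k) (p q : Fin 3) :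
    mt g.1 p q = (mt g.1 *ᵥ (Pi.single q 1)) p := by
  rw [Matrix.mulVec_single_one]
  rfl

theorem K_row [CharP k 5] {i : Fin 3} (g : H0 k) (hi : g ∈ K k i) {l : Fin 3} (hl : l ≠ i) :
    mt g.1 i l = 0 := by
  have h1 : mt g.1 *ᵥ (Pi.single i 1) = Pi.single i 1 := hi
  have h2 := B_mul g (Pi.single l 1) (Pi.single i 1)
  rw [h1, B_single, B_single, ← mt_apply, Pi.single_eq_of_ne hl.symm] at h2
  exact h2

theorem K_inter [CharP k 5] {i j : Fin 3} (hij : i ≠ j) (g : H0 k) (hi : g ∈ K k i)
    (hj : g ∈ K k j) : g = 1 := by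
  have h1 : ∀ p, mt g.1 p i = (Pi.single i 1 : Fin 3 → k) p := by
    intro p
    rw [mt_apply]
    exact congrFun hi p
  have h2 : ∀ p, mt g.1 p j = (Pi.single j 1 : Fin 3 → k) p := by
    intro p
    rw [mt_apply]
    exact congrFun hj p
  have h3 : ∀ l, l ≠ i → mt g.1 i l = 0 := fun l hl => K_row g hi hl
  have h4 : ∀ l, l ≠ j → mt g.1 j l = 0 := fun l hl => K_row g hj hl
  have hdet : (mt g.1).det = 1 := g.1.2
  rw [Matrix.det_fin_three] at hdet
  refine Subtype.ext (mt_inj ?_)
  show mt g.1 = 1
  fin_cases i <;> fin_cases j <;>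
  first
  | exact absurd rfl hij
  | (have a0 := h1 0
     have a1 := h1 1
     have a2 := h1 2
     have b0 := h2 0
     have b1 := h2 1
     have b2 := h2 2
     have c0 := h3 0
     have c1 := h3 1
     have c2 := h3 2
     have d0 := h4 0
     have d1 := h4 1
     have d2 := h4 2
     clear h1 h2 h3 h4 hi hj hij
     simp at a0 a1 a2 b0 b1 b2 c0 c1 c2 d0 d1 d2
     simp [a0, a1, a2, b0, b1, b2, c0, c1, c2, d0, d1, d2] at hdet
     ext p q
     fin_cases p <;> fin_cases q <;>
       simp [a0, a1, a2, b0, b1, b2, c0, c1, c2, d0, d1, d2, hdet])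

end Pool.Agent.N935.RK
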